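import Pool.Agent.X144.Mw.Geo
import Pool.Agent.X144.Cp.Piece3

/-!
# The pieces of all scales
-/

set_option autoImplicit false

namespace Pool.Agent.X144.Mw

open Filter Topology
open Pool.Agent.X144.Cp
open Pool.Agent.H122R3.SX (Adj)
open Pool.Agent.Y981.L2 (far mass mass_pos mass_mono self_le_mass)

theorem HP_mono {L m : ℕ} {x w w' : ℝ} (h : HP L m x w) (hw : w' ≤ w) : HP L m x w' := by
  intro d e hd he hde
  obtain ⟨j, h1, h2, h3⟩ := h d e hd he hde
  exact ⟨j, h1, h2, hw.trans h3⟩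

theorem HP_zero (x : ℝ) : HP 0 0 x 1 := by
  intro d e hd he hde
  refine ⟨0, le_rfl, by norm_num, ?_⟩
  have h1 : ([(0, 0)] : List (ℤ × ℤ)) ∈ TJ (Bx 0 0) (side 0 0 d) (side 0 0 e) 0 := by
    refine ⟨⟨?_, ?_, ?_, ?_, ?_⟩, rfl⟩
    · simp [side]
    · simp [side]
    · simp
    · simp
    · intro p hp
      simp only [List.mem_singleton] at hp
      subst hp
      exact ⟨by simp, by simp⟩
  have h2 : 1 ≤ nJ (Bx 0 0) (side 0 0 d) (side 0 0 e) 0 := by
    unfold nJ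
    rw [Nat.succ_le_iff, Set.ncard_pos (TJ_finite _ _ _ _)]
    exact ⟨_, h1⟩
  rw [pow_zero, mul_one]
  exact_mod_cast h2

theorem HP_one {x : ℝ} (hx : 0 ≤ x) : HP 1 0 x (x ^ 2) := by
  intro d e hd he hde
  refine ⟨2, by norm_num, by norm_num, ?_⟩
  have h1 : ([(d.1, d.2), (0, 0), (e.1, e.2)] : List (ℤ × ℤ)) ∈
      TJ (Bx 1 0) (side 1 0 d) (side 1 0 e) 2 := by
    refine ⟨⟨?_, ?_, ?_, ?_, ?_⟩, rfl⟩
    · simp [side]
    · simp [side]
    · have hde' : ¬ (d.1 = e.1 ∧ d.2 = e.2) := fun h => hde (Prod.ext h.1 h.2)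
      rcases hd.cases with rfl | rfl | rfl | rfl <;> rcases he.cases with rfl | rfl | rfl | rfl <;>
        simp at hde' ⊢
    · unfold Adj
      unfold IsU at hd he
      simp only [List.isChain_cons_cons, sub_zero, zero_sub, abs_neg, List.isChain_singleton,
        and_true]
      exact ⟨hd, he⟩
    · intro p hp
      simp only [List.mem_cons, List.not_mem_nil, or_false] at hp
      unfold Bx
      rcases hd.cases with rfl | rfl | rfl | rfl <;> rcases he.cases with rfl | rfl | rfl | rfl <;>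
        rcases hp with rfl | rfl | rfl <;> simp
  have h2 : 1 ≤ nJ (Bx 1 0) (side 1 0 d) (side 1 0 e) 2 := by
    unfold nJ
    rw [Nat.succ_le_iff, Set.ncard_pos (TJ_finite _ _ _ _)]
    exact ⟨_, h1⟩
  have h3 : (1 : ℝ) ≤ nJ (Bx 1 0) (side 1 0 d) (side 1 0 e) 2 := by exact_mod_cast h2
  nlinarith [pow_nonneg hx 2]

/-- pieces without a bound for the length -/
theorem HP_large : ∃ K : ℝ, 0 ≤ K ∧ ∀ L : ℕ, 2 ≤ L →
    HP L 0 (1 / H981.mu) (Real.exp (-(K * Real.log L ^ 6)) / ((2 * L + 1) ^ 2 : ℕ)) := by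
  obtain ⟨K, hK, h⟩ := Cp.lower
  refine ⟨K, hK, fun L hL d e hd he hde => ?_⟩
  have h1 := h L hL d e hd he
  by_contra hcon
  push Not at hcon
  have hN : (0 : ℝ) < ((2 * L + 1) ^ 2 : ℕ) := by positivity
  have h2 : ∑ j ∈ Finset.range ((2 * L + 1) ^ 2),
      (nJ (Bx L 0) (side L 0 d) (side L 0 e) j : ℝ) * (1 / H981.mu) ^ j <
      ∑ j ∈ Finset.range ((2 * L + 1) ^ 2),
        Real.exp (-(K * Real.log L ^ 6)) / ((2 * L + 1) ^ 2 : ℕ) := by
    apply Finset.sum_lt_sum_of_nonempty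
    · rw [Finset.nonempty_range_iff]
      positivity
    · intro j hj
      rw [Finset.mem_range] at hj
      exact hcon j (Nat.zero_le _) hj
  rw [Finset.sum_const, Finset.card_range, nsmul_eq_mul, mul_div_cancel₀ _ hN.ne'] at h2
  linarith

theorem Lj_log (s : ℕ) : Real.log (Lj s) ≤ 2 * (s + 1) := by
  have h1 : (Lj s : ℝ) ≤ (3 : ℝ) ^ s := by
    have := Lj_pow s
    have h2 : Lj s ≤ 3 ^ s := by omega
    exact_mod_cast h2
  rcases Nat.eq_zero_or_pos (Lj s) with h | h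
  · rw [h]; simp; positivity
  · have h3 : (0 : ℝ) < Lj s := by exact_mod_cast h
    have h4 := Real.log_le_log h3 h1
    rw [Real.log_pow] at h4
    have h5 : Real.log 3 ≤ 2 := by
      have := Real.log_le_sub_one_of_pos (show (0 : ℝ) < 3 by norm_num)
      linarith
    have h6 : (0 : ℝ) ≤ s := Nat.cast_nonneg _
    nlinarith

/-- pieces at all scales -/
theorem HP_scale : ∃ K : ℝ, 0 ≤ K ∧ ∀ s : ℕ,
    HP (Lj s) 0 (1 / H981.mu) (Real.exp (-(K * ((s : ℝ) + 1) ^ 6))) := by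
  obtain ⟨K, hK, h⟩ := HP_large
  have hmu1 : 1 ≤ H981.mu := by
    rw [← mu_eq]
    exact H122R3.SY.one_le_mu
  have hmu := H981.mu_pos
  have hlmu : 0 ≤ Real.log H981.mu := Real.log_nonneg hmu1
  refine ⟨64 * K + 4 + 2 * Real.log H981.mu, by positivity, fun s => ?_⟩
  have hs : (0 : ℝ) ≤ s := Nat.cast_nonneg _
  have hs6 : 1 ≤ ((s : ℝ) + 1) ^ 6 := one_le_pow₀ (by linarith)
  match s, hs, hs6 with
  | 0, hs, hs6 =>
    refine HP_mono (HP_zero _) ?_
    have : 0 ≤ (64 * K + 4 + 2 * Real.log H981.mu) * (((0 : ℕ) : ℝ) + 1) ^ 6 := by positivity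
    exact Real.exp_le_one_iff.2 (by linarith)
  | 1, hs, hs6 =>
    refine HP_mono (HP_one (by positivity)) ?_
    have hxe : 1 / H981.mu = Real.exp (-Real.log H981.mu) := by
      rw [Real.exp_neg, Real.exp_log hmu, one_div]
    rw [hxe, ← Real.exp_nat_mul]
    apply Real.exp_le_exp.2
    push_cast at hs6 ⊢
    nlinarith
  | s + 2, hs, hs6 =>
    have hL2 : 2 ≤ Lj (s + 2) := by simp only [Lj]; omega
    refine HP_mono (h _ hL2) ?_
    have h1 := Lj_log (s + 2)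
    have h2 := pow_le_pow_left₀ (Real.log_natCast_nonneg _) h1 6
    have h3 : (((2 * Lj (s + 2) + 1) ^ 2 : ℕ) : ℝ) = (3 : ℝ) ^ (2 * (s + 2)) := by
      rw [Lj_pow, ← pow_mul, mul_comm (s + 2) 2]
      push_cast
      rfl
    have h4 : Real.log 3 ≤ 2 := by
      have := Real.log_le_sub_one_of_pos (show (0 : ℝ) < 3 by norm_num)
      linarith
    have h5 : (3 : ℝ) ^ (2 * (s + 2)) ≤ Real.exp (4 * (((s + 2 : ℕ) : ℝ) + 1) ^ 6) := by
      rw [← Real.exp_log (show (0 : ℝ) < 3 ^ (2 * (s + 2)) by positivity), Real.log_pow]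
      apply Real.exp_le_exp.2
      have h6 : (((s + 2 : ℕ) : ℝ) + 1) ≤ (((s + 2 : ℕ) : ℝ) + 1) ^ 6 :=
        le_self_pow₀ (by linarith) (by norm_num)
      have h7 : (0 : ℝ) ≤ ((s + 2 : ℕ) : ℝ) := Nat.cast_nonneg _
      push_cast at h6 h7 ⊢
      nlinarith
    rw [h3, le_div_iff₀ (by positivity)]
    calc Real.exp (-((64 * K + 4 + 2 * Real.log H981.mu) * (((s + 2 : ℕ) : ℝ) + 1) ^ 6)) *
          (3 : ℝ) ^ (2 * (s + 2))
        ≤ Real.exp (-((64 * K + 4 + 2 * Real.log H981.mu) * (((s + 2 : ℕ) : ℝ) + 1) ^ 6)) *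
          Real.exp (4 * (((s + 2 : ℕ) : ℝ) + 1) ^ 6) :=
          mul_le_mul_of_nonneg_left h5 (Real.exp_pos _).le
      _ = Real.exp (-((64 * K + 2 * Real.log H981.mu) * (((s + 2 : ℕ) : ℝ) + 1) ^ 6)) := by
          rw [← Real.exp_add]; congr 1; ring
      _ ≤ _ := by
          apply Real.exp_le_exp.2
          have h8 : (2 * (((s + 2 : ℕ) : ℝ) + 1)) ^ 6 = 64 * (((s + 2 : ℕ) : ℝ) + 1) ^ 6 := by ring
          rw [h8] at h2
          have h9 := mul_le_mul_of_nonneg_left h2 hK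
          have h10 : 0 ≤ Real.log H981.mu * (((s + 2 : ℕ) : ℝ) + 1) ^ 6 := by positivity
          nlinarith

/-- long pieces in all sufficiently large boxes -/
theorem pieces_all : ∃ B K : ℝ, 0 < B ∧ 0 < K ∧ ∀ m : ℕ, 3 ≤ m → ∀ L : ℕ, 2 ≤ L →
    B * Real.log m ^ 6 / mass (1 / m) ≤ L → (L : ℝ) ≤ (m : ℝ) ^ 2 →
      HP L m (1 / H981.mu) (Real.exp (-(K * Real.log m ^ 6))) := by
  obtain ⟨K1, hK1, h1⟩ := Cp.lower
  obtain ⟨K2, hK2, h2⟩ := short
  obtain ⟨B, hB⟩ : ∃ B, B = 2 * (64 * K1 + K2 + 3) := ⟨_, rfl⟩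
  have hB0 : 0 < B := by rw [hB]; positivity
  refine ⟨B, 64 * K1 + 8, hB0, by positivity, ?_⟩
  intro m hm3 L hL2 hLlow hLm
  have hmr : (3 : ℝ) ≤ m := by exact_mod_cast hm3
  have hmp : (0 : ℝ) < m := by linarith
  obtain ⟨w, hw⟩ : ∃ w, w = Real.log (m : ℝ) := ⟨_, rfl⟩
  have hw1 : 1 ≤ w := by
    rw [hw, Real.le_log_iff_exp_le hmp]
    have := Real.exp_one_lt_d9
    linarith
  have hw6 : 1 ≤ w ^ 6 := one_le_pow₀ hw1
  have hw61 : w ≤ w ^ 6 := le_self_pow₀ hw1 (by norm_num)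
  have hw62 : w ^ 2 ≤ w ^ 6 := pow_le_pow_right₀ hw1 (by norm_num)
  have hmass : 0 < mass (1 / m) := mass_pos (by positivity)
  rw [← hw] at hLlow
  have hLp : (0 : ℝ) < L := by exact_mod_cast (by omega : 0 < L)
  intro d e hd he hde
  rw [← hw]
  have hlogL : Real.log L ^ 6 ≤ 64 * w ^ 6 := by
    have h3 : Real.log L ≤ 2 * w := by
      have := Real.log_le_log hLp hLm
      rw [Real.log_pow] at this
      rw [hw]
      exact_mod_cast this
    have h4 := pow_le_pow_left₀ (Real.log_natCast_nonneg L) h3 6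
    calc Real.log L ^ 6 ≤ (2 * w) ^ 6 := h4
      _ = _ := by ring
  have htot : Real.exp (-(64 * K1 * w ^ 6)) ≤ ∑ j ∈ Finset.range ((2 * L + 1) ^ 2),
      (nJ (Bx L 0) (side L 0 d) (side L 0 e) j : ℝ) * (1 / H981.mu) ^ j := by
    refine le_trans (Real.exp_le_exp.2 ?_) (h1 L hL2 d e hd he)
    nlinarith [mul_le_mul_of_nonneg_left hlogL hK1]
  have hshort := h2 m (by omega) L hL2 d e hd he hde
  have he1 : Real.exp (-1) < 1 / 2 := by
    rw [Real.exp_neg, inv_lt_comm₀ (Real.exp_pos _) (by norm_num)]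
    have := Real.exp_one_gt_d9
    linarith
  have hshort2 : m * Real.exp (-(mass (1 / m) * L / 2) + 1 + K2 * Real.log m ^ 2) ≤
      Real.exp (-(64 * K1 * w ^ 6)) * Real.exp (-1) := by
    rw [← hw, ← Real.exp_add]
    nth_rewrite 1 [← Real.exp_log hmp]
    rw [← Real.exp_add, ← hw]
    apply Real.exp_le_exp.2
    have h3 : B * w ^ 6 ≤ mass (1 / m) * L := by
      rw [div_le_iff₀ hmass] at hLlow
      linarith
    rw [hB] at h3
    nlinarith [mul_le_mul_of_nonneg_left hw62 hK2]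
  by_contra hcon
  push Not at hcon
  have hmu := H981.mu_pos
  have hlong : ∑ j ∈ Finset.range ((2 * L + 1) ^ 2) with ¬ j < m,
      (nJ (Bx L 0) (side L 0 d) (side L 0 e) j : ℝ) * (1 / H981.mu) ^ j ≤
      ((2 * L + 1) ^ 2 : ℕ) * Real.exp (-((64 * K1 + 8) * w ^ 6)) := by
    calc _ ≤ ∑ j ∈ Finset.range ((2 * L + 1) ^ 2) with ¬ j < m,
          Real.exp (-((64 * K1 + 8) * w ^ 6)) := by
          apply Finset.sum_le_sum
          intro j hj
          rw [Finset.mem_filter, Finset.mem_range, not_lt] at hj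
          exact (hcon j hj.2 hj.1).le
      _ = ((Finset.range ((2 * L + 1) ^ 2)).filter (fun j => ¬ j < m)).card *
          Real.exp (-((64 * K1 + 8) * w ^ 6)) := by
          rw [Finset.sum_const, nsmul_eq_mul]
      _ ≤ _ := by
          apply mul_le_mul_of_nonneg_right _ (Real.exp_pos _).le
          have := Finset.card_filter_le (Finset.range ((2 * L + 1) ^ 2)) (fun j => ¬ j < m)
          rw [Finset.card_range] at this
          exact_mod_cast this
  have hsh : ∑ j ∈ Finset.range ((2 * L + 1) ^ 2) with j < m,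
      (nJ (Bx L 0) (side L 0 d) (side L 0 e) j : ℝ) * (1 / H981.mu) ^ j ≤
      ∑ j ∈ Finset.range m,
      (nJ (Bx L 0) (side L 0 d) (side L 0 e) j : ℝ) * (1 / H981.mu) ^ j := by
    apply Finset.sum_le_sum_of_subset_of_nonneg
    · intro j hj
      rw [Finset.mem_filter] at hj
      exact Finset.mem_range.2 hj.2
    · intro j _ _
      positivity
  rw [← Finset.sum_filter_add_sum_filter_not (Finset.range ((2 * L + 1) ^ 2)) (fun j => j < m)]
    at htot
  have hN : (((2 * L + 1) ^ 2 : ℕ) : ℝ) ≤ Real.exp (7 * w ^ 6) := by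
    have h3 : (((2 * L + 1) ^ 2 : ℕ) : ℝ) ≤ 9 * (m : ℝ) ^ 4 := by
      push_cast
      have hL1 : (1 : ℝ) ≤ L := by exact_mod_cast (by omega : 1 ≤ L)
      have h4 : (2 * (L : ℝ) + 1) ^ 2 ≤ (3 * L) ^ 2 := by
        apply pow_le_pow_left₀ (by positivity)
        linarith
      have h5 : (L : ℝ) ^ 2 ≤ ((m : ℝ) ^ 2) ^ 2 := pow_le_pow_left₀ hLp.le hLm 2
      calc (2 * (L : ℝ) + 1) ^ 2 ≤ (3 * L) ^ 2 := h4
        _ = 9 * (L : ℝ) ^ 2 := by ring
        _ ≤ 9 * ((m : ℝ) ^ 2) ^ 2 := by linarith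
        _ = _ := by ring
    have h6 : (9 : ℝ) ≤ Real.exp 3 := by
      have h7 := Real.exp_one_gt_d9
      have h8 : Real.exp 3 = Real.exp 1 ^ 3 := by rw [← Real.exp_nat_mul]; norm_num
      rw [h8]
      have h9 : (2.7182818283 : ℝ) ^ 3 ≤ Real.exp 1 ^ 3 := pow_le_pow_left₀ (by norm_num) h7.le 3
      refine le_trans ?_ h9
      norm_num
    have h10 : (m : ℝ) ^ 4 = Real.exp (4 * w) := by
      rw [hw, ← Real.exp_log (pow_pos hmp 4), Real.log_pow]
      norm_num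
    refine h3.trans ?_
    rw [h10]
    calc 9 * Real.exp (4 * w) ≤ Real.exp 3 * Real.exp (4 * w) :=
          mul_le_mul_of_nonneg_right h6 (Real.exp_pos _).le
      _ = Real.exp (3 + 4 * w) := (Real.exp_add _ _).symm
      _ ≤ _ := Real.exp_le_exp.2 (by linarith)
  have hlong2 : (((2 * L + 1) ^ 2 : ℕ) : ℝ) * Real.exp (-((64 * K1 + 8) * w ^ 6)) ≤
      Real.exp (-(64 * K1 * w ^ 6)) * Real.exp (-1) := by
    calc _ ≤ Real.exp (7 * w ^ 6) * Real.exp (-((64 * K1 + 8) * w ^ 6)) :=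
          mul_le_mul_of_nonneg_right hN (Real.exp_pos _).le
      _ = Real.exp (-(64 * K1 * w ^ 6) + -(w ^ 6)) := by rw [← Real.exp_add]; congr 1; ring
      _ ≤ Real.exp (-(64 * K1 * w ^ 6) + -1) := Real.exp_le_exp.2 (by linarith)
      _ = _ := Real.exp_add _ _
  have hE := Real.exp_pos (-(64 * K1 * w ^ 6))
  nlinarith [hsh.trans hshort, hlong.trans hlong2]

end Pool.Agent.X144.Mw
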