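import Pool.Agent.X144.Cp.Path

/-!
# The geometry of `k` disjoint cones made of boxes

At the scale `s` the boxes have side `3 ^ s`. The arm `i < k` goes at this scale from the box
`(k + 2, i)` to the right, up to the height `3 i` and then to the right again.
-/

set_option autoImplicit false

namespace Pool.Agent.X144.Mw

open Pool.Agent.X144.Cp
open Pool.Agent.H122R3.SX (Adj)

/-- the half sides of the boxes -/
def Lj : ℕ → ℕ
  | 0 => 0
  | s + 1 => 3 * Lj s + 1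

theorem Lj_pow (s : ℕ) : 2 * Lj s + 1 = 3 ^ s := by
  induction s with
  | zero => rfl
  | succ s ih => rw [pow_succ, ← ih]; simp only [Lj]; ring

/-- the path of boxes of the arm `i` at one scale -/
def bp (k i t : ℕ) : ℤ × ℤ :=
  if (t : ℤ) ≤ k - i then (k + 2 + t, i)
  else if (t : ℤ) ≤ k + i then (2 * k + 2 - i, t - k + 2 * i) else (k + 2 + t - 2 * i, 3 * i)

/-- the number of the steps of this path -/
def Tm (k i : ℕ) : ℕ := 2 * k + 2 + 2 * i

theorem bp_inj {k i : ℕ} (hi : i < k) : Function.Injective (bp k i) := by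
  intro t t' h
  unfold bp at h
  split_ifs at h <;> simp only [Prod.mk.injEq] at h <;> omega

theorem bp_dir {k i : ℕ} (hi : i < k) (t : ℕ) : IsU (dir (bp k i) t) := by
  unfold IsU dir bp
  push_cast
  split_ifs <;> simp only <;>
  first
  | (exfalso; omega)
  | (have e1 : ∀ a b : ℤ, (a = 1 ∧ b = 0) ∨ (a = 0 ∧ b = 1) → |a| + |b| = 1 := by
      rintro a b (⟨rfl, rfl⟩ | ⟨rfl, rfl⟩) <;> simp
     apply e1
     omega)

theorem bp_zero {k i : ℕ} (hi : i < k) : bp k i 0 = ((k : ℤ) + 2, (i : ℤ)) := by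
  unfold bp
  rw [if_pos (by push_cast; omega)]
  simp

theorem bp_dir_zero {k i : ℕ} (hi : i < k) : dir (bp k i) 0 = (1, 0) := by
  unfold dir
  rw [bp_zero hi]
  unfold bp
  rw [if_pos (by push_cast; omega)]
  simp only [Nat.cast_zero, zero_add, Nat.cast_one]
  exact Prod.ext (by simp only; omega) (by simp only; omega)

theorem bp_last (k i : ℕ) (hi : i < k) : bp k i (Tm k i) = (3 * (k : ℤ) + 4, 3 * (i : ℤ)) := by
  unfold bp Tm
  rw [if_neg (by push_cast; omega), if_neg (by push_cast; omega)]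
  push_cast
  exact Prod.ext (by simp only; ring) rfl

theorem bp_dir_last (k i : ℕ) (hi : i < k) : dir (bp k i) (Tm k i) = (1, 0) := by
  unfold dir
  rw [bp_last k i hi]
  unfold bp Tm
  rw [if_neg (by push_cast; omega), if_neg (by push_cast; omega)]
  push_cast
  exact Prod.ext (by simp only; ring) (by simp only; ring)

theorem bp_one {k i t : ℕ} (hi : i < k) (ht : t ≤ Tm k i) :
    (k : ℤ) + 2 ≤ (bp k i t).1 ∧ (bp k i t).1 ≤ 3 * k + 4 := by
  unfold Tm at ht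
  unfold bp
  split_ifs <;> simp only <;> omega

theorem bp_two {k i t : ℕ} (hi : i < k) :
    0 ≤ (bp k i t).2 ∧ (bp k i t).2 ≤ 3 * k := by
  unfold bp
  split_ifs <;> simp only <;> omega

theorem bp_ne {k i i' t t' : ℕ} (hi : i < i') (hi' : i' < k) : bp k i t ≠ bp k i' t' := by
  intro h
  unfold bp at h
  split_ifs at h <;> simp only [Prod.mk.injEq] at h <;> omega

/-- the left end of the scale `s` -/
def Ps (k s : ℕ) : ℤ := (2 * Lj s + 1) * (k + 2) - Lj s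

theorem Ps_succ (k s : ℕ) : Ps k (s + 1) = (2 * Lj s + 1) * (3 * k + 4) + Lj s + 1 := by
  unfold Ps
  simp only [Lj]
  push_cast
  ring

theorem Ps_lt (k s : ℕ) : Ps k s < Ps k (s + 1) := by
  rw [Ps_succ]
  unfold Ps
  have : (0 : ℤ) ≤ Lj s := Nat.cast_nonneg _
  have : (0 : ℤ) ≤ k := Nat.cast_nonneg _
  nlinarith

theorem Ps_mono (k : ℕ) : Monotone (Ps k) := monotone_nat_of_le_succ fun s => (Ps_lt k s).le

/-- the boxes of the arm `i` at the scale `s` -/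
def Sc (k i s : ℕ) : Set (ℤ × ℤ) := Un (Lj s) (bp k i) (Tm k i)

theorem Sc_one {k i s : ℕ} (hi : i < k) {p : ℤ × ℤ} (hp : p ∈ Sc k i s) :
    Ps k s ≤ p.1 ∧ p.1 < Ps k (s + 1) := by
  obtain ⟨t, ht, h1, -⟩ := hp
  obtain ⟨h2, h3⟩ := bp_one hi ht
  rw [Ps_succ]
  unfold Ps
  unfold ctr at h1
  rw [abs_le] at h1
  simp only at h1
  have h4 : (0 : ℤ) ≤ Lj s := Nat.cast_nonneg _
  constructor
  · nlinarith [h1.1]
  · nlinarith [h1.2]

theorem Sc_two {k i s : ℕ} (hi : i < k) {p : ℤ × ℤ} (hp : p ∈ Sc k i s) :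
    -(Lj s : ℤ) ≤ p.2 ∧ p.2 ≤ (2 * Lj s + 1) * (3 * k) + Lj s := by
  obtain ⟨t, ht, -, h1⟩ := hp
  obtain ⟨h2, h3⟩ := bp_two (t := t) hi
  unfold ctr at h1
  rw [abs_le] at h1
  simp only at h1
  have h4 : (0 : ℤ) ≤ Lj s := Nat.cast_nonneg _
  constructor
  · nlinarith [h1.1]
  · nlinarith [h1.2]

theorem Sc_disj {k i i' s : ℕ} (hne : i ≠ i') (hi : i < k) (hi' : i' < k) {p : ℤ × ℤ}
    (hp : p ∈ Sc k i s) (hp' : p ∈ Sc k i' s) : False := by
  obtain ⟨t, ht, h1⟩ := hp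
  obtain ⟨t', ht', h1'⟩ := hp'
  have hn : bp k i t ≠ bp k i' t' := by
    rcases lt_or_gt_of_ne hne with h | h
    · exact bp_ne h hi'
    · exact (bp_ne h hi).symm
  exact Set.disjoint_left.1 (disj hn) h1 h1'

/-- the last box of the arm `i` -/
def Fb (k i J : ℕ) : Set (ℤ × ℤ) := Bx (Lj J) (ctr (Lj J) ((k : ℤ) + 2, (i : ℤ)))

theorem Fb_one {k i J : ℕ} {p : ℤ × ℤ} (hp : p ∈ Fb k i J) : Ps k J ≤ p.1 := by
  obtain ⟨h1, -⟩ := hp
  unfold Ps
  unfold ctr at h1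
  rw [abs_le] at h1
  simp only at h1
  linarith [h1.1]

theorem Fb_one' {k i J : ℕ} {p : ℤ × ℤ} (hp : p ∈ Fb k i J) : p.1 < Ps k (J + 1) := by
  obtain ⟨h1, -⟩ := hp
  rw [Ps_succ]
  unfold ctr at h1
  rw [abs_le] at h1
  simp only at h1
  have h4 : (0 : ℤ) ≤ Lj J := Nat.cast_nonneg _
  have h5 : (0 : ℤ) ≤ k := Nat.cast_nonneg _
  nlinarith [h1.2]

theorem Fb_two {k i J : ℕ} (hi : i < k) {p : ℤ × ℤ} (hp : p ∈ Fb k i J) :
    -(Lj J : ℤ) ≤ p.2 ∧ p.2 ≤ (2 * Lj J + 1) * (3 * k) + Lj J := by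
  obtain ⟨-, h1⟩ := hp
  unfold ctr at h1
  rw [abs_le] at h1
  simp only at h1
  have h4 : (0 : ℤ) ≤ Lj J := Nat.cast_nonneg _
  have h5 : (0 : ℤ) ≤ i := Nat.cast_nonneg _
  have h6 : (i : ℤ) < k := by exact_mod_cast hi
  constructor
  · nlinarith [h1.1]
  · nlinarith [h1.2]

theorem Fb_disj {k i i' J : ℕ} (hne : i ≠ i') {p : ℤ × ℤ}
    (hp : p ∈ Fb k i J) (hp' : p ∈ Fb k i' J) : False := by
  have hn : ((k : ℤ) + 2, (i : ℤ)) ≠ ((k : ℤ) + 2, (i' : ℤ)) := by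
    intro h
    simp only [Prod.mk.injEq, true_and, Nat.cast_inj] at h
    exact hne h
  exact Set.disjoint_left.1 (disj hn) hp hp'

/-- the domain of the arm `i` up to the scale `s` -/
def Dm (k i s : ℕ) : Set (ℤ × ℤ) := {p | ∃ s' ≤ s, p ∈ Sc k i s'}

/-- the domain of the arm `i` -/
def Da (k i s : ℕ) : Set (ℤ × ℤ) := Dm k i s ∪ Fb k i (s + 1)

theorem Dm_lt {k i s : ℕ} (hi : i < k) {p : ℤ × ℤ} (hp : p ∈ Dm k i s) :
    p.1 < Ps k (s + 1) := by
  obtain ⟨s', hs', h⟩ := hp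
  exact (Sc_one hi h).2.trans_le (Ps_mono k (by omega))

theorem Dm_ge {k i s : ℕ} (hi : i < k) {p : ℤ × ℤ} (hp : p ∈ Dm k i s) :
    (k : ℤ) + 2 ≤ p.1 := by
  obtain ⟨s', hs', h⟩ := hp
  have h1 := Ps_mono k (Nat.zero_le s')
  have h2 : Ps k 0 = (k : ℤ) + 2 := by unfold Ps; simp [Lj]
  rw [h2] at h1
  exact h1.trans (Sc_one hi h).1

theorem Da_ge {k i s : ℕ} (hi : i < k) {p : ℤ × ℤ} (hp : p ∈ Da k i s) :
    (k : ℤ) + 2 ≤ p.1 := by
  rcases hp with hp | hp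
  · exact Dm_ge hi hp
  · have h1 := Ps_mono k (Nat.zero_le (s + 1))
    have h2 : Ps k 0 = (k : ℤ) + 2 := by unfold Ps; simp [Lj]
    rw [h2] at h1
    exact h1.trans (Fb_one hp)

theorem Dm_Sc {k i s : ℕ} (hi : i < k) : Disjoint (Dm k i s) (Sc k i (s + 1)) := by
  rw [Set.disjoint_left]
  intro p h1 h2
  have h3 := Dm_lt hi h1
  have h4 := (Sc_one hi h2).1
  omega

theorem Dm_Fb {k i i' s : ℕ} (hi : i < k) : Disjoint (Dm k i s) (Fb k i' (s + 1)) := by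
  rw [Set.disjoint_left]
  intro p h1 h2
  have h3 := Dm_lt hi h1
  have h4 := Fb_one h2
  omega

theorem Da_disj {k i i' s : ℕ} (hne : i ≠ i') (hi : i < k) (hi' : i' < k) :
    Disjoint (Da k i s) (Da k i' s) := by
  rw [Set.disjoint_left]
  rintro p (h1 | h1) (h2 | h2)
  · obtain ⟨s1, hs1, h3⟩ := h1
    obtain ⟨s2, hs2, h4⟩ := h2
    have h5 := Sc_one hi h3
    have h6 := Sc_one hi' h4
    rcases lt_trichotomy s1 s2 with h | h | h
    · have := Ps_mono k (show s1 + 1 ≤ s2 by omega)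
      omega
    · subst h
      exact Sc_disj hne hi hi' h3 h4
    · have := Ps_mono k (show s2 + 1 ≤ s1 by omega)
      omega
  · exact Set.disjoint_left.1 (Dm_Fb hi) h1 h2
  · exact Set.disjoint_left.1 (Dm_Fb hi') h2 h1
  · exact Fb_disj hne h1 h2

theorem Lj_mono : Monotone Lj := monotone_nat_of_le_succ fun s => by simp only [Lj]; omega

theorem Da_box {k i s : ℕ} (hi : i < k) {p : ℤ × ℤ} (hp : p ∈ Da k i s) :
    |p.1| ≤ (3 * k + 5) * 3 ^ (s + 1) ∧ |p.2| ≤ (3 * k + 5) * 3 ^ (s + 1) := by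
  have hL : (2 * (Lj (s + 1) : ℤ) + 1) = 3 ^ (s + 1) := by exact_mod_cast Lj_pow (s + 1)
  have h0 : (0 : ℤ) ≤ Lj (s + 1) := Nat.cast_nonneg _
  have hk : (0 : ℤ) ≤ k := Nat.cast_nonneg _
  have h1 : p.1 < Ps k (s + 2) := by
    rcases hp with hp | hp
    · exact (Dm_lt hi hp).trans (Ps_lt k _)
    · exact Fb_one' hp
  have h2 := Da_ge hi hp
  rw [Ps_succ] at h1
  have h3 : -(Lj (s + 1) : ℤ) ≤ p.2 ∧ p.2 ≤ (2 * Lj (s + 1) + 1) * (3 * k) + Lj (s + 1) := by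
    rcases hp with ⟨s', hs', hp⟩ | hp
    · have h4 := Sc_two hi hp
      have h5 : (Lj s' : ℤ) ≤ Lj (s + 1) := by exact_mod_cast Lj_mono (by omega : s' ≤ s + 1)
      constructor
      · linarith [h4.1]
      · nlinarith [h4.2]
    · exact Fb_two hi hp
  rw [hL] at h1 h3
  have h4 : (0 : ℤ) < 3 ^ (s + 1) := by positivity
  constructor
  · rw [abs_of_nonneg (by linarith)]
    nlinarith
  · rw [abs_le]
    constructor
    · nlinarith [h3.1]
    · nlinarith [h3.2]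

end Pool.Agent.X144.Mw
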